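import Mathlib
import Pool.Agent.Lib.MP_325d88_nt.Rough1

/-!
MP_96c1b1_nt: the residue classes excluded by the sieve for `v` and `(v - e)² + c²`.
-/

set_option autoImplicit false

namespace Pool.Agent.Lib.MP_96c1b1_nt

open Finset Pool.Agent.Lib.MP_325d88_nt

theorem cnt (l : ℕ) (hl : 0 < l) (R : Finset (ZMod l)) :
    open Classical in
    ∑ t ∈ Finset.Ico (0 : ℤ) l, (if ((t : ℤ) : ZMod l) ∈ R then (1 : ℝ) else 0) = R.card := by
  classical
  haveI : NeZero l := ⟨hl.ne'⟩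
  rw [← Finset.sum_filter, Finset.sum_const, nsmul_eq_mul, mul_one]
  norm_cast
  apply Finset.card_bij (fun (t : ℤ) _ => ((t : ℤ) : ZMod l))
  · intro t ht
    exact (mem_filter.1 ht).2
  · intro t ht t' ht' h
    rw [mem_filter, mem_Ico] at ht ht'
    have h1 := (ZMod.intCast_eq_intCast_iff t t' l).1 h
    have h2 : t % (l : ℤ) = t' % (l : ℤ) := h1
    rwa [Int.emod_eq_of_lt ht.1.1 ht.1.2, Int.emod_eq_of_lt ht'.1.1 ht'.1.2] at h2
  · intro r hr
    refine ⟨(r.val : ℤ), ?_, ?_⟩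
    · rw [mem_filter, mem_Ico]
      refine ⟨⟨by positivity, by exact_mod_cast ZMod.val_lt r⟩, ?_⟩
      have : (((r.val : ℕ) : ℤ) : ZMod l) = r := by
        rw [Int.cast_natCast, ZMod.natCast_zmod_val]
      rw [this]; exact hr
    · rw [Int.cast_natCast, ZMod.natCast_zmod_val]

/-- the exceptional modulus -/
def mm (c e : ℕ) : ℕ := c * (c ^ 2 + e)

theorem roots (c e : ℕ) (he : e ≤ 1) (l : ℕ) : ∃ R : Finset (ZMod l), l.Prime → 6 < l →
    R.card = (if l % 4 = 1 ∧ ¬ l ∣ mm c e then 3 else 1) ∧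
    ∀ t : ℤ, ((t : ℤ) : ZMod l) ∈ R → (l : ℤ) ∣ t ∨ (l : ℤ) ∣ (t - e) ^ 2 + (c : ℤ) ^ 2 := by
  classical
  by_cases hl : l.Prime ∧ 6 < l
  swap
  · exact ⟨∅, fun h1 h2 => absurd ⟨h1, h2⟩ hl⟩
  obtain ⟨hp, h6⟩ := hl
  haveI : Fact l.Prime := ⟨hp⟩
  by_cases h : l % 4 = 1 ∧ ¬ l ∣ mm c e
  swap
  · refine ⟨{0}, fun _ _ => ⟨by rw [if_neg h, card_singleton], fun t ht => ?_⟩⟩
    left
    rw [mem_singleton] at ht
    exact (ZMod.intCast_zmod_eq_zero_iff_dvd t l).1 ht
  obtain ⟨h4, hm⟩ := h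
  have hsq : IsSquare (-1 : ZMod l) := by
    rw [ZMod.exists_sq_eq_neg_one_iff]
    omega
  obtain ⟨i, hi⟩ := hsq
  have hi2 : i ^ 2 = -1 := by rw [hi]; ring
  have hc0 : (c : ZMod l) ≠ 0 := by
    intro h0
    apply hm
    unfold mm
    exact Dvd.dvd.mul_right ((ZMod.natCast_eq_zero_iff c l).1 h0) _
  have hce : ((c : ZMod l)) ^ 2 + (e : ZMod l) ≠ 0 := by
    intro h0
    apply hm
    unfold mm
    apply Dvd.dvd.mul_left
    apply (ZMod.natCast_eq_zero_iff _ l).1
    push_cast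
    exact h0
  have hee : (e : ZMod l) ^ 2 = e := by
    interval_cases e <;> simp
  have h2 : (2 : ZMod l) ≠ 0 := by
    intro h0
    have h1 : ((2 : ℕ) : ZMod l) = 0 := by exact_mod_cast h0
    have h3 := (ZMod.natCast_eq_zero_iff 2 l).1 h1
    have := Nat.le_of_dvd (by norm_num) h3
    omega
  have hi0 : i ≠ 0 := by
    rintro rfl
    have h1 : (0 : ZMod l) ^ 2 = -1 := hi2
    have h3 : (1 : ZMod l) = 0 := by linear_combination h1
    exact one_ne_zero h3
  have ha : (0 : ZMod l) ≠ e + i * c := by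
    intro h0
    apply hce
    linear_combination (-((e : ZMod l) - i * c)) * h0 + (c : ZMod l) ^ 2 * hi2 - hee
  have hb : (0 : ZMod l) ≠ e - i * c := by
    intro h0
    apply hce
    linear_combination (-((e : ZMod l) + i * c)) * h0 + (c : ZMod l) ^ 2 * hi2 - hee
  have hab : (e : ZMod l) + i * c ≠ e - i * c := by
    intro h0
    have h1 : 2 * (i * c) = 0 := by linear_combination h0
    rcases mul_eq_zero.1 h1 with h | h
    · exact h2 h
    · rcases mul_eq_zero.1 h with h | h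
      · exact hi0 h
      · exact hc0 h
  refine ⟨{0, (e : ZMod l) + i * c, (e : ZMod l) - i * c}, fun _ _ => ⟨?_, fun t ht => ?_⟩⟩
  · rw [if_pos ⟨h4, hm⟩, Finset.card_eq_three]
    exact ⟨_, _, _, ha, hb, hab, rfl⟩
  · rw [mem_insert, mem_insert, mem_singleton] at ht
    rcases ht with h | h | h
    · left
      exact (ZMod.intCast_zmod_eq_zero_iff_dvd t l).1 h
    · right
      rw [← ZMod.intCast_zmod_eq_zero_iff_dvd]
      push_cast
      rw [h]
      linear_combination (c : ZMod l) ^ 2 * hi2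
    · right
      rw [← ZMod.intCast_zmod_eq_zero_iff_dvd]
      push_cast
      rw [h]
      linear_combination (c : ZMod l) ^ 2 * hi2

end Pool.Agent.Lib.MP_96c1b1_nt
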