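import Mathlib
import Pool.Agent.Lib.MP_96c1b1_nt.Roots86
import Pool.Agent.Lib.MP_a17b09_nt.MRS.PrimG7

/-!
MP_96c1b1_nt: the number of primes `v < X` for which `(v - e)² + c²` is prime, uniformly in `c`.
-/

set_option autoImplicit false

namespace Pool.Agent.Lib.MP_96c1b1_nt

open Finset Pool.Agent.Lib.MP_325d88_nt Filter Topology

/-- density of the excluded classes -/
noncomputable def gg (c e : ℕ) (l : ℕ) : ℝ :=
  if 6 < l then ((if l % 4 = 1 ∧ ¬ l ∣ mm c e then 3 else 1 : ℕ) : ℝ) / l else 0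

theorem gg_nonneg (c e l : ℕ) : 0 ≤ gg c e l := by
  unfold gg
  split_ifs <;> positivity

theorem gg_le (c e l : ℕ) (hl : 0 < l) : gg c e l ≤ 3 / l := by
  have h0 : (0 : ℝ) < l := by exact_mod_cast hl
  unfold gg
  split_ifs
  · norm_num
  · apply div_le_div_of_nonneg_right _ h0.le
    norm_num
  · positivity

theorem gg_half (c e l : ℕ) : gg c e l ≤ 1 / 2 := by
  by_cases h : 6 < l
  · refine (gg_le c e l (by omega)).trans ?_
    have h1 : (7 : ℝ) ≤ l := by exact_mod_cast h
    rw [div_le_iff₀ (by linarith)]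
    linarith
  · unfold gg
    rw [if_neg h]
    norm_num

/-- lower bound for the density -/
theorem gg_ge (c e l : ℕ) (h : 6 < l) : 1 / (l : ℝ) + (if l % 4 = 1 then 2 / (l : ℝ) else 0) -
    (if l ∣ mm c e then 2 / (l : ℝ) else 0) ≤ gg c e l := by
  have h0 : (0 : ℝ) < l := by exact_mod_cast (by omega : 0 < l)
  have h2 : (0 : ℝ) < 2 / l := by positivity
  have h3 : (3 : ℝ) / l = 1 / l + 2 / l := by ring
  unfold gg
  rw [if_pos h]
  by_cases h4 : l % 4 = 1 <;> by_cases h5 : l ∣ mm c e
  · rw [if_pos h4, if_pos h5, if_neg (by tauto)]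
    push_cast; linarith
  · rw [if_pos h4, if_neg h5, if_pos ⟨h4, h5⟩]
    push_cast; linarith
  · rw [if_neg h4, if_pos h5, if_neg (by tauto)]
    push_cast; linarith
  · rw [if_neg h4, if_neg h5, if_neg (by tauto)]
    push_cast; linarith

/-- the sieve -/
theorem sieve : ∃ B : ℕ, 15 ≤ B ∧ ∃ Z0 : ℕ, ∀ w z X : ℕ, 6 ≤ w → Z0 ≤ z → z ^ B ≤ X →
    ∀ c e : ℕ, 1 ≤ c → e ≤ 1 →
    open Classical in
    (((range X).filter (fun v => v.Prime ∧ ((v - e) ^ 2 + c ^ 2).Prime)).card : ℝ) ≤
      z + 2 * (Real.exp (-∑ p ∈ PR w z, gg c e p) * X) := by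
  classical
  obtain ⟨b, hb⟩ := good_ev 3 (1 / 3) (by norm_num) (by norm_num) 0
  have hb' := hb b le_rfl
  rw [pow_zero, div_one] at hb'
  obtain ⟨Z0, hZ⟩ := line_sieve 3 (by norm_num) (1 / 3) (by norm_num) (by norm_num) b hb'
  refine ⟨8 * b + 15, by omega, Z0 + 1, fun w z X hw hz hzX c e hc he => ?_⟩
  choose R hR using roots c e he
  set F : ℕ → ℤ → ℝ := fun p t => if ((t : ℤ) : ZMod p) ∈ R p then 1 else 0 with hF
  have hF01 : ∀ p t, F p t = 0 ∨ F p t = 1 := by
    intro p t
    rw [hF]; simp only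
    split_ifs
    · right; rfl
    · left; rfl
  have hPR : ∀ p ∈ PR w z, p.Prime ∧ 6 < p ∧ p ≤ z := by
    intro p hp
    rw [mem_PR] at hp
    exact ⟨hp.2.2, by omega, hp.2.1⟩
  have h1 := hZ w z X (by omega) (by omega) hzX 0 X le_rfl F (by
      intro p _ t t' h
      rw [hF]; simp only
      rw [(ZMod.intCast_eq_intCast_iff t t' p).2 h]) hF01 (gg c e) (gg_nonneg c e) (gg_half c e)
    (fun p hp => gg_le c e p (hPR p hp).1.pos) (by
      intro p hp
      obtain ⟨hpp, h6, -⟩ := hPR p hp
      have h2 := cnt p hpp.pos (R p)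
      have hp0 : (p : ℝ) ≠ 0 := by exact_mod_cast hpp.pos.ne'
      rw [hF]; simp only
      rw [h2, ((hR p) hpp h6).1]
      unfold gg
      rw [if_pos h6, div_mul_cancel₀ _ hp0])
  set S : ℝ := ∑ t ∈ Finset.Ico (0 : ℤ) (0 + X), ∏ p ∈ PR w z, (1 - F p t) with hS
  set V : ℝ := ∏ p ∈ PR w z, (1 - gg c e p) with hV
  have hV0 : 0 ≤ V := prod_nonneg fun p _ => by
    have := gg_half c e p
    linarith
  have hVX : 0 ≤ V * X := by positivity
  have h3 : S ≤ 2 * (V * X) := by
    have := (abs_le.1 h1).2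
    linarith
  have hVe : V ≤ Real.exp (-∑ p ∈ PR w z, gg c e p) := by
    rw [← sum_neg_distrib, Real.exp_sum]
    apply Finset.prod_le_prod
    · intro p _
      have := gg_half c e p
      linarith
    · intro p _
      have := Real.add_one_le_exp (-gg c e p)
      linarith
  have h4 : (((range X).filter (fun v => z < v ∧ v.Prime ∧ ((v - e) ^ 2 + c ^ 2).Prime)).card : ℝ) ≤
      S := by
    rw [hS, zero_add, Ico_zero_sum]
    rw [card_filter, Nat.cast_sum]
    apply sum_le_sum
    intro v _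
    have hprod0 : 0 ≤ ∏ p ∈ PR w z, (1 - F p (v : ℤ)) := by
      apply prod_nonneg
      intro p _
      rcases hF01 p v with h | h <;> rw [h] <;> norm_num
    split_ifs with hv
    · obtain ⟨hzv, hvp, hvq⟩ := hv
      have h5 : ∏ p ∈ PR w z, (1 - F p (v : ℤ)) = 1 := by
        apply prod_eq_one
        intro p hp
        obtain ⟨hpp, h6, hpz⟩ := hPR p hp
        have h7 : F p (v : ℤ) = 0 := by
          rw [hF]; simp only
          apply if_neg
          intro hmem
          rcases ((hR p) hpp h6).2 v hmem with hd | hd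
          · have h8 : p ∣ v := by exact_mod_cast hd
            have h9 := (Nat.prime_dvd_prime_iff_eq hpp hvp).1 h8
            omega
          · have h8 : p ∣ (v - e) ^ 2 + c ^ 2 := by
              have h10 : (((v - e) ^ 2 + c ^ 2 : ℕ) : ℤ) = ((v : ℤ) - e) ^ 2 + (c : ℤ) ^ 2 := by
                have : e ≤ v := by omega
                push_cast [this]
                ring
              rw [← h10] at hd
              exact_mod_cast hd
            have h9 := (Nat.prime_dvd_prime_iff_eq hpp hvq).1 h8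
            have h11 : v ≤ (v - e) ^ 2 + c ^ 2 := by
              have h12 : v - 1 ≤ v - e := by omega
              have h13 : (v - 1) ^ 2 ≤ (v - e) ^ 2 := Nat.pow_le_pow_left h12 2
              have h14 : 1 ≤ c ^ 2 := Nat.one_le_pow _ _ hc
              obtain ⟨u, hu⟩ : ∃ u, v = u + 2 := ⟨v - 2, by have := hvp.two_le; omega⟩
              have h15 : v - 1 = u + 1 := by omega
              rw [h15] at h13
              nlinarith
            omega
        rw [h7]; ring
      rw [h5]; norm_num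
    · exact_mod_cast hprod0
  have h5 : (((range X).filter (fun v => v.Prime ∧ ((v - e) ^ 2 + c ^ 2).Prime)).card : ℝ) ≤
      z + (((range X).filter (fun v => z < v ∧ v.Prime ∧ ((v - e) ^ 2 + c ^ 2).Prime)).card : ℝ) := by
    have h6 : (range X).filter (fun v => v.Prime ∧ ((v - e) ^ 2 + c ^ 2).Prime) ⊆
        (Icc 1 z) ∪ (range X).filter (fun v => z < v ∧ v.Prime ∧ ((v - e) ^ 2 + c ^ 2).Prime) := by
      intro v hv
      rw [mem_filter] at hv
      rw [mem_union, mem_Icc, mem_filter]
      by_cases h : z < v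
      · right; exact ⟨hv.1, h, hv.2⟩
      · left; exact ⟨hv.2.1.one_le, by omega⟩
    have h7 := (card_le_card h6).trans (card_union_le _ _)
    rw [Nat.card_Icc, Nat.add_sub_cancel] at h7
    exact_mod_cast h7
  have h6 : V * X ≤ Real.exp (-∑ p ∈ PR w z, gg c e p) * X :=
    mul_le_mul_of_nonneg_right hVe (Nat.cast_nonneg _)
  linarith

end Pool.Agent.Lib.MP_96c1b1_nt
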