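import Mathlib
import Pool.Agent.Lib.MP_96c1b1_nt.Sieve86

/-!
MP_96c1b1_nt: the sum of the densities (Mertens for the primes and for the primes `= 1 mod 4`).
-/

set_option autoImplicit false

namespace Pool.Agent.Lib.MP_96c1b1_nt

open Finset Pool.Agent.Lib.MP_325d88_nt Filter Topology

theorem card_pf (m : ℕ) (hm : 0 < m) : (m.primeFactors.card : ℝ) * Real.log 2 ≤ Real.log m := by
  have h1 : 2 ^ m.primeFactors.card ≤ ∏ p ∈ m.primeFactors, p := by
    rw [← prod_const]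
    apply Finset.prod_le_prod'
    intro p hp
    exact (Nat.prime_of_mem_primeFactors hp).two_le
  have h2 : ∏ p ∈ m.primeFactors, p ≤ m := Nat.le_of_dvd hm (Nat.prod_primeFactors_dvd m)
  have h3 : (2 : ℝ) ^ m.primeFactors.card ≤ m := by exact_mod_cast h1.trans h2
  rw [← Real.log_pow]
  exact Real.log_le_log (by positivity) h3

theorem sum_low : ∃ C : ℝ, 0 ≤ C ∧ ∀ w z : ℕ, 6 ≤ w → w ≤ z → ∀ c e : ℕ, 1 ≤ c → e ≤ 1 →
    Real.log (mm c e) ≤ 4 * w →
    2 * Real.log (Real.log (z + 1) / Real.log (w + 1)) - C ≤ ∑ p ∈ PR w z, gg c e p := by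
  classical
  obtain ⟨C1, hC1, h1⟩ := Pool.Agent.Lib.MP_a17b09_nt.MRSG.merG_7 1 one_pos 1
    (Nat.coprime_one_right 1)
  obtain ⟨C2, hC2, h2⟩ := Pool.Agent.Lib.MP_a17b09_nt.MRSG.merG_7 4 (by norm_num) 1
    (Nat.coprime_one_left 4)
  refine ⟨C1 + 2 * C2 + 12, by positivity, fun w z hw hwz c e hc he hm => ?_⟩
  have hwr : (6 : ℝ) ≤ w := by exact_mod_cast hw
  have hwz' : (w : ℝ) ≤ z := by exact_mod_cast hwz
  have h3 := (abs_le.1 (h1 ((w : ℝ) + 1) ((z : ℝ) + 1) (by linarith) (by linarith))).1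
  have h4 := (abs_le.1 (h2 ((w : ℝ) + 1) ((z : ℝ) + 1) (by linarith) (by linarith))).1
  have ht4 : Nat.totient 4 = 2 := by decide
  rw [Nat.totient_one] at h3
  rw [ht4] at h4
  set L : ℝ := Real.log (Real.log ((z : ℝ) + 1) / Real.log ((w : ℝ) + 1)) with hL
  have hP1 : Pool.Agent.Lib.MP_a17b09_nt.MRSG.PA7 1 1 ((w : ℝ) + 1) ((z : ℝ) + 1) = PR w z := by
    ext p
    rw [Pool.Agent.Lib.MP_a17b09_nt.MRSG.mem_PA7, mem_PR]
    constructor
    · rintro ⟨a, -, b, d⟩
      have b' : w + 1 ≤ p := by exact_mod_cast b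
      have d' : p < z + 1 := by exact_mod_cast d
      exact ⟨by omega, by omega, a⟩
    · rintro ⟨a, b, d⟩
      refine ⟨d, Nat.modEq_one, ?_, ?_⟩
      · exact_mod_cast a
      · exact_mod_cast Nat.lt_succ_of_le b
  have hP2 : Pool.Agent.Lib.MP_a17b09_nt.MRSG.PA7 4 1 ((w : ℝ) + 1) ((z : ℝ) + 1) =
      (PR w z).filter (fun p => p % 4 = 1) := by
    ext p
    rw [Pool.Agent.Lib.MP_a17b09_nt.MRSG.mem_PA7, mem_filter, mem_PR]
    constructor
    · rintro ⟨a, h, b, d⟩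
      have b' : w + 1 ≤ p := by exact_mod_cast b
      have d' : p < z + 1 := by exact_mod_cast d
      exact ⟨⟨by omega, by omega, a⟩, h⟩
    · rintro ⟨⟨a, b, d⟩, h⟩
      refine ⟨d, h, ?_, ?_⟩
      · exact_mod_cast a
      · exact_mod_cast Nat.lt_succ_of_le b
  rw [hP1] at h3
  rw [hP2, sum_filter] at h4
  have h5 : ∑ p ∈ PR w z, (1 / (p : ℝ) + (if p % 4 = 1 then 2 / (p : ℝ) else 0) -
      (if p ∣ mm c e then 2 / (p : ℝ) else 0)) ≤ ∑ p ∈ PR w z, gg c e p := by
    apply sum_le_sum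
    intro p hp
    rw [mem_PR] at hp
    exact gg_ge c e p (by omega)
  rw [sum_sub_distrib, sum_add_distrib] at h5
  have h6 : ∑ p ∈ PR w z, (if p % 4 = 1 then 2 / (p : ℝ) else 0) =
      2 * ∑ p ∈ PR w z, (if p % 4 = 1 then 1 / (p : ℝ) else 0) := by
    rw [mul_sum]
    apply sum_congr rfl
    intro p _
    split_ifs <;> ring
  have hm0 : 0 < mm c e := by
    unfold mm
    have : 0 < c ^ 2 := pow_pos (by omega) 2
    exact Nat.mul_pos (by omega) (by omega)
  have h7 : ∑ p ∈ PR w z, (if p ∣ mm c e then 2 / (p : ℝ) else 0) ≤ 12 := by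
    rw [← sum_filter]
    have h8 : (PR w z).filter (fun p => p ∣ mm c e) ⊆ (mm c e).primeFactors := by
      intro p hp
      rw [mem_filter, mem_PR] at hp
      exact Nat.mem_primeFactors.2 ⟨hp.1.2.2, hp.2, hm0.ne'⟩
    have h9 : ∑ p ∈ (PR w z).filter (fun p => p ∣ mm c e), 2 / (p : ℝ) ≤
        ∑ _p ∈ (PR w z).filter (fun p => p ∣ mm c e), 2 / (w : ℝ) := by
      apply sum_le_sum
      intro p hp
      rw [mem_filter, mem_PR] at hp
      apply div_le_div_of_nonneg_left (by norm_num) (by linarith)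
      exact_mod_cast hp.1.1.le
    rw [sum_const, nsmul_eq_mul] at h9
    have h10 : (((PR w z).filter (fun p => p ∣ mm c e)).card : ℝ) ≤
        ((mm c e).primeFactors.card : ℝ) := by exact_mod_cast card_le_card h8
    have h11 := card_pf (mm c e) hm0
    have h12 := Real.log_two_gt_d9
    have h13 : ((mm c e).primeFactors.card : ℝ) ≤ 6 * w := by
      have h14 : ((mm c e).primeFactors.card : ℝ) * Real.log 2 ≤ 4 * w := h11.trans hm
      nlinarith [Nat.cast_nonneg (α := ℝ) (mm c e).primeFactors.card]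
    calc _ ≤ _ := h9
      _ ≤ (6 * w) * (2 / (w : ℝ)) := mul_le_mul_of_nonneg_right (h10.trans h13) (by positivity)
      _ = 12 := by
        have : (w : ℝ) ≠ 0 := by linarith
        field_simp
        norm_num
  push_cast at h3 h4
  rw [h6] at h5
  linarith

end Pool.Agent.Lib.MP_96c1b1_nt
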