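import Mathlib
import Pool.Agent.Lib.MP_96c1b1_nt.Mert86

/-!
MP_96c1b1_nt: the number of primes `v < X` for which `(v - e)² + c²` is prime, uniformly in
`c ≤ X`: at most a constant times `X (log log X)² / (log X)²`.
-/

set_option autoImplicit false

namespace Pool.Agent.Lib.MP_96c1b1_nt

open Finset Pool.Agent.Lib.MP_325d88_nt Filter Topology

theorem count_le : ∃ K : ℝ, 0 < K ∧ ∀ᶠ X : ℕ in atTop, ∀ c e : ℕ, 1 ≤ c → c ≤ X → e ≤ 1 →
    open Classical in
    (((range X).filter (fun v => v.Prime ∧ ((v - e) ^ 2 + c ^ 2).Prime)).card : ℝ) ≤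
      K * (X * Real.log (Real.log X + 8) ^ 2 / Real.log X ^ 2) := by
  classical
  obtain ⟨B, hB, Z0, hs⟩ := sieve
  obtain ⟨C, hC, hm⟩ := sum_low
  have hBr : (15 : ℝ) ≤ B := by exact_mod_cast hB
  have hB0 : (0 : ℝ) < B := by linarith
  have hβ : (0 : ℝ) < 1 / B := by positivity
  refine ⟨16 + 2 * Real.exp C * B ^ 2, by positivity, ?_⟩
  have e1 : ∀ᶠ X : ℕ in atTop, (Z0 : ℝ) + 1 ≤ (X : ℝ) ^ (1 / (B : ℝ)) :=
    ((tendsto_rpow_atTop hβ).comp tendsto_natCast_atTop_atTop).eventually_ge_atTop _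
  have e2 : ∀ᶠ X : ℕ in atTop, (8 : ℝ) ≤ (1 / 2) * (X : ℝ) ^ (1 / (B : ℝ)) := by
    filter_upwards [((tendsto_rpow_atTop hβ).comp
      tendsto_natCast_atTop_atTop).eventually_ge_atTop (16 : ℝ)] with X hX
    simp only [Function.comp] at hX
    linarith
  have e3 : ∀ᶠ X : ℕ in atTop, Real.log X ≤ (1 / 2) * (X : ℝ) ^ (1 / (B : ℝ)) := by
    have h := (isLittleO_log_rpow_atTop hβ).comp_tendsto
      (tendsto_natCast_atTop_atTop (R := ℝ))
    have h2 := h.bound (show (0 : ℝ) < 1 / 2 by norm_num)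
    filter_upwards [h2] with X hX
    simp only [Function.comp, Real.norm_eq_abs] at hX
    have h3 : |(X : ℝ) ^ (1 / (B : ℝ))| = (X : ℝ) ^ (1 / (B : ℝ)) :=
      abs_of_nonneg (by positivity)
    rw [h3] at hX
    exact (le_abs_self _).trans hX
  filter_upwards [e1, e2, e3, eventually_ge_atTop 3] with X h1 h2 h3 h4 c e hc hcX he
  have hXr : (3 : ℝ) ≤ X := by exact_mod_cast h4
  have hX0 : (0 : ℝ) < X := by linarith
  set L : ℝ := Real.log X with hL
  have hL1 : 1 ≤ L := by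
    rw [hL, ← Real.log_exp 1]
    apply Real.log_le_log (Real.exp_pos _)
    have := Real.exp_one_lt_d9
    linarith
  have hL0 : 0 < L := by linarith
  set Y : ℝ := (X : ℝ) ^ (1 / (B : ℝ)) with hY
  have hY0 : 0 < Y := by positivity
  set w : ℕ := ⌈L⌉₊ + 6 with hw
  set z : ℕ := ⌊Y⌋₊ with hz
  have hwL : (w : ℝ) ≤ L + 7 := by
    have := Nat.ceil_lt_add_one hL0.le
    rw [hw]; push_cast; linarith
  have hLw : L ≤ w := by
    have := Nat.le_ceil L
    rw [hw]; push_cast; linarith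
  have hzY : (z : ℝ) ≤ Y := Nat.floor_le hY0.le
  have hYz : Y < z + 1 := Nat.lt_floor_add_one Y
  have hwz : w ≤ z := by
    have : (w : ℝ) < z + 1 := by linarith
    exact_mod_cast Nat.lt_succ_iff.1 (by exact_mod_cast this)
  have hZ0 : Z0 ≤ z := by
    have : (Z0 : ℝ) < z + 1 := by linarith
    exact Nat.lt_succ_iff.1 (by exact_mod_cast this)
  have hYB : Y ^ B = X := by
    rw [hY, ← Real.rpow_natCast, ← Real.rpow_mul hX0.le, one_div, inv_mul_cancel₀ hB0.ne',
      Real.rpow_one]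
  have hzB : z ^ B ≤ X := by
    have : (z : ℝ) ^ B ≤ X := by
      rw [← hYB]
      exact pow_le_pow_left₀ (Nat.cast_nonneg _) hzY B
    exact_mod_cast this
  have hmm : Real.log (mm c e) ≤ 4 * w := by
    have h5 : mm c e ≤ X ^ 4 := by
      unfold mm
      have h6 : c ^ 2 ≤ X ^ 2 := Nat.pow_le_pow_left hcX 2
      have h7 : c ^ 2 + e ≤ X ^ 3 := by
        have h8 : X ^ 2 + 1 ≤ X ^ 3 := by
          have h9 : 1 ≤ X ^ 2 := Nat.one_le_pow _ _ (by omega)
          calc X ^ 2 + 1 ≤ X ^ 2 + X ^ 2 := by omega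
            _ = X ^ 2 * 2 := by ring
            _ ≤ X ^ 2 * X := Nat.mul_le_mul_left _ (by omega)
            _ = X ^ 3 := by ring
        omega
      calc c * (c ^ 2 + e) ≤ X * X ^ 3 := Nat.mul_le_mul hcX h7
        _ = X ^ 4 := by ring
    have h6 : Real.log (mm c e) ≤ 4 * L := by
      rcases Nat.eq_zero_or_pos (mm c e) with h0 | h0
      · rw [h0]; simp only [Nat.cast_zero, Real.log_zero]; linarith
      · have h7 : Real.log (mm c e) ≤ Real.log ((X : ℝ) ^ 4) := by
          apply Real.log_le_log (by exact_mod_cast h0)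
          exact_mod_cast h5
        rw [Real.log_pow] at h7
        exact_mod_cast h7
    linarith
  have h5 := hs w z X (by omega) hZ0 hzB c e hc he
  have h6 := hm w z (by omega) hwz c e hc he hmm
  have hwr : (6 : ℝ) ≤ w := by
    have : 6 ≤ w := by omega
    exact_mod_cast this
  have hzr : (6 : ℝ) ≤ z := by
    have : 6 ≤ z := by omega
    exact_mod_cast this
  have hlw : 0 < Real.log ((w : ℝ) + 1) := Real.log_pos (by linarith)
  have hlz : 0 < Real.log ((z : ℝ) + 1) := Real.log_pos (by linarith)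
  have hlz2 : L / B ≤ Real.log ((z : ℝ) + 1) := by
    have h7 : Real.log Y ≤ Real.log ((z : ℝ) + 1) := Real.log_le_log hY0 hYz.le
    rw [hY, Real.log_rpow hX0] at h7
    calc L / B = 1 / B * L := by ring
      _ ≤ _ := h7
  have hlw2 : Real.log ((w : ℝ) + 1) ≤ Real.log (L + 8) :=
    Real.log_le_log (by linarith) (by linarith)
  have hl8 : 1 ≤ Real.log (L + 8) := by
    rw [← Real.log_exp 1]
    apply Real.log_le_log (Real.exp_pos _)
    have := Real.exp_one_lt_d9
    linarith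
  have h7 : Real.exp (-∑ p ∈ PR w z, gg c e p) ≤
      Real.exp C * (Real.log (L + 8) * B / L) ^ 2 := by
    have h8 : Real.exp (-∑ p ∈ PR w z, gg c e p) ≤
        Real.exp (C - 2 * Real.log (Real.log (z + 1) / Real.log (w + 1))) :=
      Real.exp_le_exp.2 (by linarith)
    have h9 : Real.exp (C - 2 * Real.log (Real.log (z + 1) / Real.log (w + 1))) =
        Real.exp C * (Real.log (w + 1) / Real.log (z + 1)) ^ 2 := by
      have h10 : 0 < Real.log ((z : ℝ) + 1) / Real.log ((w : ℝ) + 1) := div_pos hlz hlw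
      have h11 : C - 2 * Real.log (Real.log (z + 1) / Real.log (w + 1)) =
          C + (2 : ℕ) * Real.log (Real.log (w + 1) / Real.log (z + 1)) := by
        rw [← inv_div, Real.log_inv]
        push_cast
        ring
      rw [h11, Real.exp_add, ← Real.log_pow, Real.exp_log (by positivity)]
    rw [h9] at h8
    refine h8.trans ?_
    apply mul_le_mul_of_nonneg_left _ (Real.exp_pos _).le
    apply pow_le_pow_left₀ (by positivity)
    rw [div_le_div_iff₀ hlz hL0]
    calc Real.log ((w : ℝ) + 1) * L ≤ Real.log (L + 8) * L :=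
          mul_le_mul_of_nonneg_right hlw2 hL0.le
      _ = (Real.log (L + 8) * B) * (L / B) := by field_simp
      _ ≤ (Real.log (L + 8) * B) * Real.log ((z : ℝ) + 1) :=
          mul_le_mul_of_nonneg_left hlz2 (by positivity)
  have h8 : (z : ℝ) ≤ 16 * (X * Real.log (L + 8) ^ 2 / L ^ 2) := by
    have h9 : Y ≤ (X : ℝ) ^ (1 / 2 : ℝ) := by
      rw [hY]
      apply Real.rpow_le_rpow_of_exponent_le (by linarith)
      apply one_div_le_one_div_of_le (by norm_num)
      linarith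
    have h10 : L ≤ 4 * (X : ℝ) ^ (1 / 4 : ℝ) := by
      have h11 := Real.log_le_rpow_div hX0.le (show (0 : ℝ) < 1 / 4 by norm_num)
      calc L ≤ (X : ℝ) ^ (1 / 4 : ℝ) / (1 / 4) := h11
        _ = _ := by ring
    have h11 : L ^ 2 ≤ 16 * (X : ℝ) ^ (1 / 2 : ℝ) := by
      have h12 : L ^ 2 ≤ (4 * (X : ℝ) ^ (1 / 4 : ℝ)) ^ 2 := pow_le_pow_left₀ hL0.le h10 2
      have h13 : (4 * (X : ℝ) ^ (1 / 4 : ℝ)) ^ 2 = 16 * (X : ℝ) ^ (1 / 2 : ℝ) := by
        rw [mul_pow, ← Real.rpow_natCast ((X : ℝ) ^ (1 / 4 : ℝ)), ← Real.rpow_mul hX0.le]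
        norm_num
      rw [h13] at h12
      exact h12
    have h12 : (X : ℝ) ^ (1 / 2 : ℝ) * (X : ℝ) ^ (1 / 2 : ℝ) = X := by
      rw [← Real.rpow_add hX0]
      norm_num
    have h13 : (z : ℝ) * L ^ 2 ≤ 16 * X := by
      calc (z : ℝ) * L ^ 2 ≤ (X : ℝ) ^ (1 / 2 : ℝ) * (16 * (X : ℝ) ^ (1 / 2 : ℝ)) :=
            mul_le_mul (hzY.trans h9) h11 (by positivity) (by positivity)
        _ = 16 * ((X : ℝ) ^ (1 / 2 : ℝ) * (X : ℝ) ^ (1 / 2 : ℝ)) := by ring
        _ = 16 * X := by rw [h12]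
    have h14 : (z : ℝ) ≤ 16 * X / L ^ 2 := by
      rw [le_div_iff₀ (by positivity)]
      exact h13
    refine h14.trans ?_
    rw [mul_div_assoc]
    apply mul_le_mul_of_nonneg_left _ (by norm_num)
    apply div_le_div_of_nonneg_right _ (by positivity)
    have h15 : (1 : ℝ) ≤ Real.log (L + 8) ^ 2 := one_le_pow₀ hl8
    nlinarith
  have h9 : 2 * (Real.exp (-∑ p ∈ PR w z, gg c e p) * X) ≤
      2 * Real.exp C * B ^ 2 * (X * Real.log (L + 8) ^ 2 / L ^ 2) := by
    have h10 : Real.exp (-∑ p ∈ PR w z, gg c e p) * X ≤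
        Real.exp C * (Real.log (L + 8) * B / L) ^ 2 * X :=
      mul_le_mul_of_nonneg_right h7 hX0.le
    calc 2 * (Real.exp (-∑ p ∈ PR w z, gg c e p) * X) ≤
          2 * (Real.exp C * (Real.log (L + 8) * B / L) ^ 2 * X) := by linarith
      _ = _ := by
        rw [div_pow, mul_pow]
        ring
  linarith

end Pool.Agent.Lib.MP_96c1b1_nt
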