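import Mathlib
import Pool.Agent.Lib.MP_325d88_nt.PNTAP

/-!
MP_96c1b1_nt: the size of the `N`-th prime.
-/

set_option autoImplicit false

namespace Pool.Agent.Lib.MP_96c1b1_nt

open Finset Filter Topology

theorem count_nth (N : ℕ) (hN : 1 ≤ N) :
    ((range (Nat.nth Nat.Prime (N - 1) + 1)).filter
      (fun p => p.Prime ∧ p ≡ 1 [MOD 1])).card = N := by
  have h1 : (range (Nat.nth Nat.Prime (N - 1) + 1)).filter (fun p => p.Prime ∧ p ≡ 1 [MOD 1]) =
      (range (Nat.nth Nat.Prime (N - 1) + 1)).filter Nat.Prime := by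
    apply filter_congr
    intro p _
    exact ⟨fun h => h.1, fun h => ⟨h, Nat.modEq_one⟩⟩
  rw [h1, ← Nat.count_eq_card_filter_range,
    Nat.count_nth_succ_of_infinite Nat.infinite_setOf_prime]
  omega

theorem nth_le : ∀ᶠ N : ℕ in atTop, ((Nat.nth Nat.Prime (N - 1) : ℕ) : ℝ) + 1 ≤
    4 * N * Real.log ((Nat.nth Nat.Prime (N - 1) : ℕ) + 1) := by
  have h := Pool.Agent.MP_325d88_nt.pnt_ap 1 one_pos 1 (Nat.coprime_one_right 1)
  rw [Nat.totient_one] at h
  have h1 : Tendsto (fun N : ℕ => Nat.nth Nat.Prime (N - 1)) atTop atTop :=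
    (Nat.nth_strictMono Nat.infinite_setOf_prime).tendsto_atTop.comp (tendsto_sub_atTop_nat 1)
  have h2 := (h.comp h1).eventually_const_lt (show (1 : ℝ) / 2 < 1 / ((1 : ℕ) : ℝ) by norm_num)
  filter_upwards [h2, eventually_ge_atTop 1] with N h3 hN
  simp only [Function.comp] at h3
  rw [count_nth N hN] at h3
  set p : ℕ := Nat.nth Nat.Prime (N - 1) with hp
  have hpp : p.Prime := Nat.prime_nth_prime _
  have hp2 : (2 : ℝ) ≤ p := by exact_mod_cast hpp.two_le
  have hp0 : (0 : ℝ) < p := by linarith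
  rw [lt_div_iff₀ hp0] at h3
  have hlog : Real.log p ≤ Real.log ((p : ℝ) + 1) := Real.log_le_log hp0 (by linarith)
  have hN0 : (0 : ℝ) ≤ N := Nat.cast_nonneg _
  have h4 : (N : ℝ) * Real.log p ≤ N * Real.log ((p : ℝ) + 1) :=
    mul_le_mul_of_nonneg_left hlog hN0
  linarith

end Pool.Agent.Lib.MP_96c1b1_nt
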